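import Pool.Agent.V5helper99.DC.Defs

namespace DC99

open Finset

lemma J8_mem_JT {n : ℕ} {V J : Finset (Fin n)} {j : Fin n} :
    symmDiff V {j} ∈ JT V J ↔ j ∈ J := by
  constructor
  · rintro ⟨i, hi, h⟩
    have h1 : ({j} : Finset (Fin n)) = {i} := symmDiff_right_injective V h
    rw [Finset.singleton_inj] at h1
    rw [h1]
    exact hi
  · intro h
    exact ⟨j, h, rfl⟩

lemma J8_card_mem {n : ℕ} {Z : Finset (Fin n)} {a : Fin n} (h : a ∈ Z) :
    (symmDiff Z {a}).card + 1 = Z.card := by
  have h1 : symmDiff Z {a} = Z.erase a := by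
    ext x
    simp only [Finset.mem_symmDiff, Finset.mem_singleton, Finset.mem_erase]
    by_cases hx : x = a
    · subst hx
      simp [h]
    · simp [hx]
  rw [h1, Finset.card_erase_add_one h]

lemma J8_card_not {n : ℕ} {Z : Finset (Fin n)} {a : Fin n} (h : a ∉ Z) :
    (symmDiff Z {a}).card = Z.card + 1 := by
  have h1 : symmDiff Z {a} = insert a Z := by
    ext x
    simp only [Finset.mem_symmDiff, Finset.mem_singleton, Finset.mem_insert]
    by_cases hx : x = a
    · subst hx
      simp [h]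
    · simp [hx]
  rw [h1, Finset.card_insert_of_notMem h]

lemma J8_even {n : ℕ} {V : Finset (Fin n)} (hV : Odd V.card) (j : Fin n) :
    Even (symmDiff V {j}).card := by
  by_cases h : j ∈ V
  · have := J8_card_mem h
    rw [← this] at hV
    rcases Nat.even_or_odd (symmDiff V {j}).card with h1 | h1
    · exact h1
    · exact absurd hV (by
        rw [Nat.not_odd_iff_even]
        exact h1.add_one)
  · rw [J8_card_not h]
    exact hV.add_one

lemma J8_mem_ST {n : ℕ} {V S : Finset (Fin n)} (hV : Odd V.card) {j : Fin n} :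
    symmDiff V {j} ∈ ST V S ↔ j ∈ S := by
  have h1 : symmDiff (symmDiff V {j}) V = {j} := by
    rw [symmDiff_comm V, symmDiff_assoc, symmDiff_self, symmDiff_bot]
  constructor
  · rintro ⟨_, h⟩
    rw [h1] at h
    exact h (Finset.mem_singleton_self j)
  · intro h
    refine ⟨J8_even hV j, ?_⟩
    rw [h1]
    exact Finset.singleton_subset_iff.2 h

lemma J8_sd1 {n : ℕ} {V W : Finset (Fin n)} {a b : Fin n} (hab : a ≠ b)
    (h4 : a ∉ symmDiff (symmDiff V {a}) W) (h5 : a ∉ symmDiff (symmDiff V {b}) W) : False := by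
  simp only [Finset.mem_symmDiff, Finset.mem_singleton] at h4 h5
  by_cases h1 : a ∈ V <;> by_cases h2 : a ∈ W <;> simp [h1, h2, hab] at h4 h5

lemma J8_sd2 {n : ℕ} {V W : Finset (Fin n)} {a x : Fin n} (hx : x ∈ symmDiff V W) (hxa : x ≠ a) :
    x ∈ symmDiff (symmDiff V {a}) W := by
  simp only [Finset.mem_symmDiff, Finset.mem_singleton] at hx ⊢
  by_cases h1 : x ∈ V <;> by_cases h2 : x ∈ W <;> simp [h1, h2, hxa] at hx ⊢

lemma J8_sd3 {n : ℕ} {A V W : Finset (Fin n)} {x : Fin n} (hx : x ∈ symmDiff A V)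
    (h8 : x ∉ symmDiff A W) (h9 : x ∉ symmDiff V W) : False := by
  simp only [Finset.mem_symmDiff] at hx h8 h9
  by_cases h1 : x ∈ V <;> by_cases h2 : x ∈ W <;> by_cases h3 : x ∈ A <;>
    simp [h1, h2, h3] at hx h8 h9

lemma J8_sd4 {n : ℕ} {A V W : Finset (Fin n)} {x : Fin n} (hx : x ∈ symmDiff A W)
    (h8 : x ∉ symmDiff A V) (h9 : x ∉ symmDiff V W) : False := by
  simp only [Finset.mem_symmDiff] at hx h8 h9
  by_cases h1 : x ∈ V <;> by_cases h2 : x ∈ W <;> by_cases h3 : x ∈ A <;>
    simp [h1, h2, h3] at hx h8 h9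

lemma J8_sd5 {n : ℕ} {a b c x : Fin n} (hx : x ∈ symmDiff (symmDiff ({a} : Finset (Fin n)) {b}) {c}) :
    x = a ∨ x = b ∨ x = c := by
  simp only [Finset.mem_symmDiff, Finset.mem_singleton] at hx
  by_cases h1 : x = a <;> by_cases h2 : x = b <;> by_cases h3 : x = c <;> simp [h1, h2, h3] at hx ⊢

lemma J8_sd6 {n : ℕ} {a b c : Fin n} (hab : a ≠ b) (hac : a ≠ c) :
    a ∈ symmDiff ({a} : Finset (Fin n)) (symmDiff {b} {c}) := by
  simp [Finset.mem_symmDiff, hab, hac]

lemma J8_sd7 {n : ℕ} {a b c : Fin n} (hab : a ≠ b) (hbc : b ≠ c) :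
    b ∈ symmDiff ({a} : Finset (Fin n)) (symmDiff {b} {c}) := by
  simp [Finset.mem_symmDiff, hab.symm, hbc]

/-- an ST family is not contained in a JT family -/
lemma J8_not {n : ℕ} {V J W S : Finset (Fin n)} (hW : Odd W.card) (hS : 3 ≤ S.card) :
    ¬ ST W S ⊆ JT V J := by
  intro hsub
  obtain ⟨a, ha, b, hb, c, hc, hab, hac, hbc⟩ := Finset.two_lt_card.1 (show 2 < S.card from hS)
  set Z := symmDiff V W with hZ
  -- singletons
  have key : ∀ x ∈ S, (symmDiff Z {x}).card = 1 := by
    intro x hx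
    obtain ⟨y, _, hy⟩ := hsub ((J8_mem_ST hW).2 hx)
    have h1 : symmDiff Z {x} = {y} := by
      rw [hZ, symmDiff_assoc, hy, ← symmDiff_assoc, symmDiff_self, bot_symmDiff]
    rw [h1, Finset.card_singleton]
  have hZ2 : ∀ x ∈ S, x ∉ Z → Z.card = 0 := by
    intro x hx hxZ
    have h1 := key x hx
    rw [J8_card_not hxZ] at h1
    omega
  have hZ3 : ∀ x ∈ S, x ∈ Z → Z.card = 2 := by
    intro x hx hxZ
    have h1 := key x hx
    have h2 := J8_card_mem hxZ
    omega
  by_cases haZ : a ∈ Z
  · have h2 := hZ3 a ha haZ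
    have hbZ : b ∈ Z := by
      by_contra h
      have := hZ2 b hb h
      omega
    have hcZ : c ∈ Z := by
      by_contra h
      have := hZ2 c hc h
      omega
    have h3 : ({a, b, c} : Finset (Fin n)) ⊆ Z := by
      intro x hx
      simp only [Finset.mem_insert, Finset.mem_singleton] at hx
      rcases hx with rfl | rfl | rfl <;> assumption
    have h4 := Finset.card_le_card h3
    rw [Finset.card_eq_three.2 ⟨a, b, c, hab, hac, hbc, rfl⟩] at h4
    omega
  · have h2 := hZ2 a ha haZ
    rw [Finset.card_eq_zero] at h2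
    -- `V = W`; use the family member `W ∆ {a} ∆ {b} ∆ {c}`
    have hVW : V = W := by
      have h3 : symmDiff V W = ⊥ := h2
      exact symmDiff_eq_bot.1 h3
    have h4 : symmDiff (symmDiff (symmDiff W {a}) {b}) {c} ∈ ST W S := by
      refine ⟨?_, ?_⟩
      · have e1 := J8_even hW a
        have o2 : Odd (symmDiff (symmDiff W {a}) {b}).card := by
          by_cases h : b ∈ symmDiff W {a}
          · have := J8_card_mem h
            rcases Nat.even_or_odd (symmDiff (symmDiff W {a}) {b}).card with h5 | h5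
            · rw [← this] at e1
              exact absurd e1 (by
                rw [Nat.not_even_iff_odd]
                exact h5.add_one)
            · exact h5
          · rw [J8_card_not h]
            exact e1.add_one
        exact J8_even o2 c
      · have h6 : symmDiff (symmDiff (symmDiff (symmDiff W {a}) {b}) {c}) W =
            symmDiff (symmDiff {a} {b}) {c} := by
          rw [symmDiff_assoc W, symmDiff_assoc W, symmDiff_comm W, symmDiff_assoc, symmDiff_self,
            symmDiff_bot]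
        rw [h6]
        intro x hx
        rcases J8_sd5 hx with h7 | h7 | h7 <;> rw [h7]
        · exact ha
        · exact hb
        · exact hc
    obtain ⟨y, _, hy⟩ := hsub h4
    rw [hVW, symmDiff_assoc, symmDiff_assoc] at hy
    have h8 : symmDiff ({a} : Finset (Fin n)) (symmDiff {b} {c}) = {y} :=
      symmDiff_right_injective W hy
    have h9 := J8_sd6 hab hac
    have h10 := J8_sd7 hab hbc
    rw [h8, Finset.mem_singleton] at h9 h10
    exact hab (h9.trans h10.symm)

theorem t_J8 {n : ℕ} (hn : 3 ≤ n) (G : Fin n → Set (Finset (Fin n)))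
    (hG : ∀ i : Fin n, (∃ V J : Finset (Fin n), Odd V.card ∧ J.card = i + 1 ∧ G i = JT V J) ∨
      (∃ W S : Finset (Fin n), Odd W.card ∧ S.card = i ∧ 3 ≤ S.card ∧ G i = ST W S))
    (hmono : ∀ i j, i ≤ j → G i ⊆ G j) :
    ∃ (t : ℕ) (V : Finset (Fin n)) (C : ℕ → Finset (Fin n)), 3 ≤ t ∧ t ≤ n ∧ Odd V.card ∧ IsChainC C ∧
      ∀ i : Fin n, G i = fam V C t i := by
  classical
  -- the index `t`
  obtain ⟨t, ht3, htn, hJT, hST⟩ : ∃ t : ℕ, 3 ≤ t ∧ t ≤ n ∧
      (∀ i : Fin n, (i : ℕ) < t → ∃ V J : Finset (Fin n), Odd V.card ∧ J.card = i + 1 ∧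
        G i = JT V J) ∧
      (∀ i : Fin n, t ≤ (i : ℕ) → ∃ W S : Finset (Fin n), Odd W.card ∧ S.card = i ∧ 3 ≤ S.card ∧
        G i = ST W S) := by
    by_cases hex : ∃ k : ℕ, ∃ h : k < n, ∃ W S : Finset (Fin n), Odd W.card ∧ S.card = k ∧
        3 ≤ S.card ∧ G ⟨k, h⟩ = ST W S
    · have hspec := Nat.find_spec hex
      set t := Nat.find hex with ht
      obtain ⟨htn, W, S, hW, hS, hS3, hGt⟩ := hspec
      refine ⟨t, by omega, htn.le, ?_, ?_⟩
      · intro i hi
        rcases hG i with h | ⟨W', S', h1, h2, h3, h4⟩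
        · exact h
        · exact absurd ⟨i.2, W', S', h1, h2, h3, h4⟩ (Nat.find_min hex hi)
      · intro i hi
        rcases hG i with ⟨V, J, h1, h2, h3⟩ | h
        · exfalso
          have h4 : G ⟨t, htn⟩ ⊆ G i := hmono _ _ hi
          rw [hGt, h3] at h4
          exact J8_not hW hS3 h4
        · exact h
    · refine ⟨n, hn, le_rfl, ?_, ?_⟩
      · intro i _
        rcases hG i with h | ⟨W', S', h1, h2, h3, h4⟩
        · exact h
        · exact absurd ⟨i, i.2, W', S', h1, h2, h3, h4⟩ hex
      · intro i hi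
        exact absurd i.2 (by omega)
  -- the centre `V`
  have ht1 : t - 1 < n := by omega
  obtain ⟨V, J, hV, hJc, hGJ⟩ := hJT ⟨t - 1, ht1⟩ (by
    show t - 1 < t
    omega)
  have hJc' : J.card = t := by
    rw [hJc]
    show t - 1 + 1 = t
    omega
  set D : Fin n → Finset (Fin n) := fun i => univ.filter (fun j => symmDiff V {j} ∈ G i) with hD
  have hDmem : ∀ i j, j ∈ D i ↔ symmDiff V {j} ∈ G i := by
    intro i j
    simp [hD]
  have hA : ∀ i : Fin n, (i : ℕ) < t → G i = JT V (D i) ∧ (D i).card = i + 1 := by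
    intro i hi
    have h1 : G i = JT V (D i) := by
      ext A
      constructor
      · intro hA
        have h2 : A ∈ G ⟨t - 1, ht1⟩ := hmono i _ (by
          show (i : ℕ) ≤ t - 1
          omega) hA
        rw [hGJ] at h2
        obtain ⟨j, _, rfl⟩ := h2
        exact ⟨j, (hDmem i j).2 hA, rfl⟩
      · rintro ⟨j, hj, rfl⟩
        exact (hDmem i j).1 hj
    refine ⟨h1, ?_⟩
    obtain ⟨V', J', hV', hJ', hGi⟩ := hJT i hi
    rw [← hJ']
    have h3 : (D i).image (fun j => symmDiff V {j}) = J'.image (fun j => symmDiff V' {j}) := by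
      ext A
      have h4 : A ∈ JT V (D i) ↔ A ∈ JT V' J' := by rw [← h1, hGi]
      simp only [Finset.mem_image]
      constructor
      · rintro ⟨j, hj, rfl⟩
        obtain ⟨j', hj', h5⟩ := h4.1 ⟨j, hj, rfl⟩
        exact ⟨j', hj', h5.symm⟩
      · rintro ⟨j, hj, rfl⟩
        obtain ⟨j', hj', h5⟩ := h4.2 ⟨j, hj, rfl⟩
        exact ⟨j', hj', h5.symm⟩
    have hinj : ∀ U : Finset (Fin n), Function.Injective (fun j : Fin n => symmDiff U {j}) := by
      intro U a b hab
      exact Finset.singleton_injective (symmDiff_right_injective U hab)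
    rw [← Finset.card_image_of_injective (D i) (hinj V), h3,
      Finset.card_image_of_injective _ (hinj V')]
  have hB : ∀ i : Fin n, t ≤ (i : ℕ) → G i = ST V (D i) ∧ (D i).card = i := by
    intro i hi
    obtain ⟨W, S, hW, hS, hS3, hGi⟩ := hST i hi
    have h1 : JT V J ⊆ ST W S := by
      rw [← hGJ, ← hGi]
      exact hmono _ _ (by
        show t - 1 ≤ (i : ℕ)
        omega)
    -- two elements of `J`
    have h2 : ∀ j ∈ J, symmDiff (symmDiff V {j}) W ⊆ S := fun j hj => (h1 ⟨j, hj, rfl⟩).2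
    obtain ⟨a, ha, b, hb, hab⟩ := Finset.one_lt_card.1 (show 1 < J.card by omega)
    have h3 : a ∈ S := by
      by_contra hc
      exact J8_sd1 hab (fun h => hc (h2 a ha h)) (fun h => hc (h2 b hb h))
    have h6 : symmDiff V W ⊆ S := by
      intro x hx
      by_cases hxa : x = a
      · rw [hxa]
        exact h3
      · exact h2 a ha (J8_sd2 hx hxa)
    have h7 : ST W S = ST V S := by
      ext A
      constructor
      · rintro ⟨hA1, hA2⟩
        refine ⟨hA1, fun x hx => ?_⟩
        by_contra hc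
        exact J8_sd3 hx (fun h => hc (hA2 h)) (fun h => hc (h6 h))
      · rintro ⟨hA1, hA2⟩
        refine ⟨hA1, fun x hx => ?_⟩
        by_contra hc
        exact J8_sd4 hx (fun h => hc (hA2 h)) (fun h => hc (h6 h))
    have h10 : D i = S := by
      ext j
      rw [hDmem, hGi, h7]
      exact J8_mem_ST hV
    rw [h10]
    exact ⟨by rw [hGi, h7], hS⟩
  have hDmono : ∀ i j : Fin n, i ≤ j → D i ⊆ D j := by
    intro i j hij x hx
    rw [hDmem] at hx ⊢
    exact hmono i j hij hx
  -- the chain
  set D' : ℕ → Finset (Fin n) := fun m => if h : m < n then D ⟨m, h⟩ else univ with hD'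
  have hD'1 : ∀ m (h : m < n), D' m = D ⟨m, h⟩ := by
    intro m h
    simp [hD', h]
  have hD'2 : ∀ m, n ≤ m → D' m = univ := by
    intro m h
    simp [hD', Nat.not_lt.2 h]
  have hD'mono : ∀ m m', m ≤ m' → D' m ⊆ D' m' := by
    intro m m' h
    by_cases h' : m' < n
    · rw [hD'1 m (by omega), hD'1 m' h']
      exact hDmono _ _ h
    · rw [hD'2 m' (by omega)]
      exact Finset.subset_univ _
  have hcardA : ∀ m, m < t → (D' m).card = m + 1 := by
    intro m hm
    rw [hD'1 m (by omega)]
    exact (hA ⟨m, by omega⟩ hm).2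
  have hcardB : ∀ m, t ≤ m → m ≤ n → (D' m).card = m := by
    intro m hm hmn
    by_cases h : m < n
    · rw [hD'1 m h]
      exact (hB ⟨m, h⟩ hm).2
    · rw [hD'2 m (by omega), Finset.card_univ, Fintype.card_fin]
      omega
  have hDt : D' (t - 1) = D' t := by
    apply Finset.eq_of_subset_of_card_le (hD'mono _ _ (by omega))
    rw [hcardB t le_rfl htn, hcardA (t - 1) (by omega)]
    omega
  refine ⟨t, V, fun m => if m = 0 then ∅ else if m ≤ t then D' (m - 1) else D' m, ht3, htn, hV,
    ⟨?_, ?_⟩, ?_⟩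
  · intro m hm
    by_cases h0 : m = 0
    · subst h0
      simp
    · simp only [h0, if_false]
      by_cases h1 : m ≤ t
      · rw [if_pos h1, hcardA (m - 1) (by omega)]
        omega
      · rw [if_neg h1]
        exact hcardB m (by omega) hm
  · intro m m' hmm hm'
    by_cases h0 : m = 0
    · subst h0
      simp
    · have h0' : m' ≠ 0 := by omega
      simp only [h0, h0', if_false]
      by_cases h1 : m ≤ t
      · by_cases h2 : m' ≤ t
        · rw [if_pos h1, if_pos h2]
          exact hD'mono _ _ (by omega)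
        · rw [if_pos h1, if_neg h2]
          exact hD'mono _ _ (by omega)
      · rw [if_neg h1, if_neg (by omega)]
        exact hD'mono _ _ hmm
  · intro i
    unfold fam
    by_cases h : (i : ℕ) < t
    · rw [if_pos h]
      have h1 : (i : ℕ) + 1 ≠ 0 := by omega
      simp only [h1, if_false]
      rw [if_pos (by omega), Nat.add_sub_cancel, hD'1 i i.2]
      exact (hA i h).1
    · rw [if_neg h]
      have h1 : (i : ℕ) ≠ 0 := by omega
      simp only [h1, if_false]
      by_cases h2 : (i : ℕ) ≤ t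
      · have h3 : (i : ℕ) = t := by omega
        rw [if_pos h2, h3, hDt, ← h3, hD'1 i i.2]
        exact (hB i (by omega)).1
      · rw [if_neg h2, hD'1 i i.2]
        exact (hB i (by omega)).1

end DC99
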